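import Mathlib
import Pool.Agent.V11304.EC.Five

/-!
# MP_2064c1_nt, Q1 (affirmative answer)

For every prime `p ≡ 1 (mod 3)`, with `m = (p-1)/3`,
`a(0) + ... + a(p-1) ≡ C(2m,m) (mod p²)`.
-/

namespace Pool.Agent.Results.MP_2064c1_nt.Full

/-- `a(n) = ∑_{j=0}^n C(n+j,j) C(n,j) C(n-j,j)`. -/
def a (n : ℕ) : ℕ :=
  ∑ j ∈ Finset.range (n + 1), (n + j).choose j * n.choose j * (n - j).choose j

/-- For every prime `p ≡ 1 (mod 3)` and `m = (p-1)/3`, `∑_{k<p} a(k) ≡ C(2m,m) (mod p²)`. -/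
theorem result : ∀ p : ℕ, p.Prime → p % 3 = 1 →
    ((∑ k ∈ Finset.range p, a k : ℕ) : ℤ) ≡
      (((2 * ((p - 1) / 3)).choose ((p - 1) / 3) : ℕ) : ℤ) [ZMOD (p : ℤ) ^ 2] := by
  intro p hp h3
  have : Fact p.Prime := ⟨hp⟩
  have hp2 := hp.two_le
  obtain ⟨n, hn⟩ : ∃ n, p = 2 * n + 1 := by
    have ho : Odd p := hp.odd_of_ne_two (by omega)
    obtain ⟨n, hn⟩ := ho
    exact ⟨n, hn⟩
  have hm : p = 3 * ((p - 1) / 3) + 1 := by omega
  have h := Pool.Agent.V11304.EC.main1 hn hm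
  have e : ∑ k ∈ Finset.range p, a k =
      ∑ k ∈ Finset.range p, ∑ j ∈ Finset.range (k + 1), Pool.Agent.V11304.EC.tm k j := by
    refine Finset.sum_congr rfl fun k _ => ?_
    unfold a
    refine Finset.sum_congr rfl fun j _ => ?_
    unfold Pool.Agent.V11304.EC.tm
    ring
  rw [e]
  exact (Int.modEq_iff_dvd.mpr h).symm

end Pool.Agent.Results.MP_2064c1_nt.Full
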